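import Mathlib
import Pool.Agent.Helper96.LB3.Stmts

/-!
Module LIN of the project log-Brunn-Minkowski in dimension three: the volumes of the body in `X`
and of its picture in `Y × ℝ` are proportional.
-/

open MeasureTheory Module
open scoped ENNReal

namespace Pool.Agent.Helper45.LB3

open Pool.Agent.Helper96.LB3

theorem st_LIN : ST_LIN := by
  intro X Y ι _ _ _ _ _ μ _ _ _ _ _ _ ν _ _ φ L
  -- the linear homeomorphism
  let Lc : (Y × ℝ) ≃L[ℝ] X := L.toContinuousLinearEquiv
  have hLc : ∀ p, Lc p = L p := fun p => rfl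
  let μ' : Measure (Y × ℝ) := μ.map Lc.symm
  have : μ'.IsAddHaarMeasure := Lc.symm.isAddHaarMeasure_map μ
  let π : Measure (Y × ℝ) := ν.prod (volume : Measure ℝ)
  have : π.IsAddHaarMeasure := inferInstance
  have h1 : μ' = Measure.addHaarScalarFactor μ' π • π :=
    Measure.isAddLeftInvariant_eq_smul μ' π
  set c : NNReal := Measure.addHaarScalarFactor μ' π with hc
  have hcpos : 0 < c := Measure.addHaarScalarFactor_pos_of_isAddHaarMeasure μ' π
  refine ⟨(c : ℝ), by exact_mod_cast hcpos, fun h => ?_⟩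
  have hset : KB (fun u => (φ u).comp (L.toLinearMap.comp (LinearMap.inl ℝ Y ℝ)))
      (fun u => φ u (L (0, 1))) h = Lc.symm.symm ⁻¹' (KS φ h) := by
    ext p
    obtain ⟨y, z⟩ := p
    have hp : L (y, z) = L (y, 0) + z • L (0, 1) := by
      rw [← map_smul, ← map_add]
      congr 1
      ext <;> simp
    simp only [KB, KS, Set.mem_ofPred_eq, Set.mem_preimage, ContinuousLinearEquiv.symm_symm, hLc]
    refine forall_congr' fun u => ?_
    rw [hp, map_add, map_smul]
    simp [mul_comm]
  have hmap : μ' (Lc.symm.symm ⁻¹' (KS φ h)) = μ (KS φ h) := by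
    have : μ' = μ.map Lc.symm.toHomeomorph.toMeasurableEquiv := rfl
    rw [this, MeasurableEquiv.map_apply]
    congr 1
    ext x
    simp
  unfold VS VB
  rw [hset]
  have h2 : μ' (Lc.symm.symm ⁻¹' (KS φ h)) = (c : ENNReal) * π (Lc.symm.symm ⁻¹' (KS φ h)) := by
    conv_lhs => rw [h1]
    rw [Measure.smul_apply, ENNReal.smul_def, smul_eq_mul]
  rw [Measure.real, Measure.real, ← hmap, h2, ENNReal.toReal_mul]
  rfl

end Pool.Agent.Helper45.LB3
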