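import Mathlib
import Pool.Agent.Helper96.LB3.Stmts

/-!
Module LOW of the project log-Brunn-Minkowski in dimension three: the inequality in dimension
`d + 1` gives the one in dimension `d`, by taking products with an interval.
-/

open MeasureTheory Module
open scoped ENNReal

namespace Pool.Agent.Helper45.LB3

open Pool.Agent.Helper96.LB3

/-- The functionals on the product with a line. -/
noncomputable def lowPhi {X ι : Type} [NormedAddCommGroup X] [NormedSpace ℝ X]
    (φ : ι → X →ₗ[ℝ] ℝ) : Option ι → (X × ℝ) →ₗ[ℝ] ℝ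
  | none => LinearMap.snd ℝ X ℝ
  | some u => (φ u).comp (LinearMap.fst ℝ X ℝ)

/-- The heights on the product with a line. -/
noncomputable def lowH {ι : Type} (h : ι → ℝ) : Option ι → ℝ
  | none => 1
  | some u => h u

theorem low_KS {X ι : Type} [NormedAddCommGroup X] [NormedSpace ℝ X]
    (φ : ι → X →ₗ[ℝ] ℝ) (h : ι → ℝ) :
    KS (lowPhi φ) (lowH h) = KS φ h ×ˢ Set.Icc (-1 : ℝ) 1 := by
  ext ⟨x, z⟩
  simp only [KS, Set.mem_ofPred_eq, Set.mem_prod, Option.forall, lowPhi, lowH,
    LinearMap.snd_apply, LinearMap.comp_apply, LinearMap.fst_apply, Set.mem_Icc, abs_le]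
  tauto

theorem low_VS {X ι : Type} [NormedAddCommGroup X] [NormedSpace ℝ X] [FiniteDimensional ℝ X]
    [MeasurableSpace X] [BorelSpace X] (μ : Measure X) [μ.IsAddHaarMeasure]
    (φ : ι → X →ₗ[ℝ] ℝ) (h : ι → ℝ) :
    VS (μ.prod (volume : Measure ℝ)) (lowPhi φ) (lowH h) = 2 * VS μ φ h := by
  unfold VS
  rw [low_KS, Measure.real, Measure.real, Measure.prod_prod, ENNReal.toReal_mul,
    Real.volume_Icc, mul_comm]
  norm_num

theorem low_gm {ι : Type} (hp hm : ι → ℝ) :
    gm (lowH hp) (lowH hm) = lowH (gm hp hm) := by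
  funext u
  cases u <;> simp [gm, lowH]

theorem st_LOW : ST_LOW := by
  intro d hd X ι _ _ _ _ _ μ _ _ φ hfin hsep hp hm hhp hhm
  have hfin' : finrank ℝ (X × ℝ) = d + 1 := by
    rw [Module.finrank_prod, hfin, Module.finrank_self]
  have hsep' : Sep (lowPhi φ) := by
    rintro ⟨x, z⟩ hx
    have h1 : z = 0 := by simpa [lowPhi] using hx none
    have h2 : x = 0 := hsep x fun u => by simpa [lowPhi] using hx (some u)
    rw [h1, h2]; rfl
  have hpos : ∀ h : ι → ℝ, (∀ u, 0 < h u) → ∀ u, 0 < lowH h u := by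
    intro h hh u
    cases u with
    | none => simp [lowH]
    | some u => exact hh u
  have key := hd (X × ℝ) (Option ι) (μ.prod (volume : Measure ℝ)) (lowPhi φ) hfin' hsep'
    (lowH hp) (lowH hm) (hpos hp hhp) (hpos hm hhm)
  rw [low_gm, low_VS, low_VS, low_VS] at key
  nlinarith

end Pool.Agent.Helper45.LB3
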